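import Pool.Agent.V7H68.HF.Spec1
import Pool.Agent.V7H68.UF.Lea2

/-!
The weighted version of `MS.frost`.
-/

set_option autoImplicit false

namespace Pool.Agent.V7H30.HF

open Finset Real MeasureTheory Filter
open Pool.Agent.V7H68 Pool.Agent.V7H68.SS Pool.Agent.V7H68.MS Pool.Agent.V7H68.UF
open Pool.Agent.V7H68.HF (cl S_FRO)
open scoped ENNReal

section lea

variable {W : Type} [Fintype W] [Nonempty W] {X : Type} {Λ : Type} [DecidableEq Λ]

open Classical in
/-- the weight of a state -/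
noncomputable def wa (alive : X → Prop) (dd : X → ℝ) (s : ℝ) (x : X) : ℝ :=
  if alive x then exp (- (s * dd x)) else 0

theorem wa_nonneg (alive : X → Prop) (dd : X → ℝ) (s : ℝ) (x : X) : 0 ≤ wa alive dd s x := by
  unfold wa
  split
  · exact (Real.exp_pos _).le
  · exact le_rfl

theorem wt_alive (T : X → W → X) (alive : X → Prop) (dd : X → ℝ) (s : ℝ) (n : ℕ) :
    ∀ (x : X) (w : Fin n → W), alv T alive n x w →
      wt T (wa alive dd s) n x w = exp (- (s * dcr T dd n x w)) := by
  induction n with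
  | zero => intro x w _; simp [wt, dcr]
  | succ n ih =>
    intro x w h
    simp only [wt, dcr]
    rw [ih _ _ h.2]
    unfold wa
    rw [if_pos h.1, ← Real.exp_add]
    congr 1
    ring

theorem wt_nonneg (T : X → W → X) {a : X → ℝ} (ha : ∀ x, 0 ≤ a x) (n : ℕ) :
    ∀ (x : X) (w : Fin n → W), 0 ≤ wt T a n x w := by
  induction n with
  | zero => intro x w; simp [wt]
  | succ n ih =>
    intro x w
    simp only [wt]
    exact mul_nonneg (ha x) (ih _ _)

theorem fib (T : X → W → X) (lab : X → W → Λ) (a : X → ℝ) (n : ℕ) (x : X) (p : Fin n → Λ) :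
    ∑ w ∈ Finset.univ.filter (fun w => pth T lab n x w = p), wt T a n x w =
      (Fintype.card W : ℝ) ^ n * PW T lab a n x p := by
  have hN0 : (0:ℝ) < Fintype.card W := by exact_mod_cast Fintype.card_pos
  rw [PW_eq, ← mul_assoc, mul_inv_cancel₀ (by positivity), one_mul, Finset.sum_filter]

open Classical in
theorem heavy : ∃ lam : ℝ, 0 < lam ∧ lam ≤ 1 ∧
    ∀ (h : ℝ) (T : X → W → X) (lab : X → W → Λ) (dd : X → ℝ) (alive : X → Prop),
      (∀ x, 0 ≤ dd x) → (∀ x, alive x → h - dd x ≤ HH lab x) → ∀ (n : ℕ) (x : X) (D θ : ℝ),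
      0 < θ →
      ((Finset.univ.filter fun w : Fin n → W => alv T alive n x w ∧ dcr T dd n x w ≤ D ∧
        θ ≤ PW T lab (wa alive dd lam) n x (pth T lab n x w)).card : ℝ) *
        (exp (- (lam * D)) * θ ^ lam) ≤
      (Fintype.card W : ℝ) ^ n * exp (- (lam * (h - 1))) ^ n := by
  have hN1 : (1:ℝ) ≤ Fintype.card W := by exact_mod_cast Fintype.card_pos
  have hlN := Real.log_nonneg hN1
  obtain ⟨lam0, hlam0, hl01, hl02⟩ := MS.exists_rate hlN (one_pos (α := ℝ))
  set lam := min lam0 1 with hlamdef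
  have hlam : 0 < lam := lt_min hlam0 one_pos
  have hlam1 : lam ≤ 1 := min_le_right _ _
  have hl1 : lam * log (Fintype.card W) ≤ 1 := by
    have h1 : lam * log (Fintype.card W) ≤ lam0 * log (Fintype.card W) :=
      mul_le_mul_of_nonneg_right (min_le_left _ _) hlN
    linarith
  have hl2 : lam * log (Fintype.card W) ^ 2 ≤ 1 := by
    have h1 : lam * log (Fintype.card W) ^ 2 ≤ lam0 * log (Fintype.card W) ^ 2 :=
      mul_le_mul_of_nonneg_right (min_le_left _ _) (by positivity)
    linarith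
  refine ⟨lam, hlam, hlam1, ?_⟩
  intro h T lab dd alive hdd hal n x D θ hθ0
  set a : X → ℝ := wa alive dd lam with ha
  have ha0 : ∀ x, 0 ≤ a x := wa_nonneg _ _ _
  set N : ℝ := (Fintype.card W : ℝ) with hN
  have hN0 : 0 < N := by linarith
  have hrho : ∀ x, a x ^ (1 + lam) * ∑ d, N⁻¹ * cc lab x d ^ lam ≤ exp (- (lam * (h - 1))) := by
    intro x
    by_cases hx : alive x
    · have h3 : a x = exp (- (lam * dd x)) := by rw [ha]; unfold wa; rw [if_pos hx]
      have h4 := moment_of_entropy lab hlam hl1 x (hal x hx)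
      have h5 : lam ^ 2 * log N ^ 2 ≤ lam * 1 := by
        have := mul_le_mul_of_nonneg_left hl2 hlam.le
        nlinarith
      rw [h3, ← Real.exp_mul]
      refine (mul_le_mul_of_nonneg_left h4 (Real.exp_pos _).le).trans ?_
      rw [← Real.exp_add]
      refine Real.exp_le_exp.2 ?_
      rw [← hN]
      have h6 : 0 ≤ lam * lam * dd x := mul_nonneg (mul_nonneg hlam.le hlam.le) (hdd x)
      nlinarith
    · have h3 : a x = 0 := by rw [ha]; unfold wa; rw [if_neg hx]
      rw [h3, Real.zero_rpow (by linarith), zero_mul]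
      exact (Real.exp_pos _).le
  set Q : (Fin n → W) → ℝ := fun w => PW T lab a n x (pth T lab n x w) with hQ
  have hmom : ∑ w, wt T a n x w * Q w ^ lam ≤ N ^ n * exp (- (lam * (h - 1))) ^ n := by
    have h1 : ∑ w, wt T a n x w * Q w ^ lam =
        N ^ n * ∑ p ∈ Finset.univ.image (pth T lab n x), PW T lab a n x p ^ (1 + lam) := by
      rw [Finset.mul_sum, ← Finset.sum_fiberwise_of_maps_to
        (t := Finset.univ.image (pth T lab n x))
        (g := pth T lab n x) fun w hw => Finset.mem_image_of_mem _ hw]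
      refine Finset.sum_congr rfl fun p hp => ?_
      have h3 : ∑ w ∈ Finset.univ.filter (fun w => pth T lab n x w = p),
          wt T a n x w * Q w ^ lam =
          (∑ w ∈ Finset.univ.filter (fun w => pth T lab n x w = p), wt T a n x w) *
            PW T lab a n x p ^ lam := by
        rw [Finset.sum_mul]
        refine Finset.sum_congr rfl fun w hw => ?_
        rw [Finset.mem_filter] at hw
        rw [hQ]
        simp only
        rw [hw.2]
      rw [h3, fib]
      rcases (PW_nonneg T lab a ha0 n x p).eq_or_lt with h5 | h5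
      · rw [← h5, Real.zero_rpow hlam.ne', Real.zero_rpow (by linarith)]
        ring
      · rw [Real.rpow_add h5, Real.rpow_one]
        ring
    rw [h1]
    exact mul_le_mul_of_nonneg_left (wmoment T lab a ha0 hlam.le (Real.exp_pos _).le hrho n x _)
      (by positivity)
  refine le_trans ?_ hmom
  rw [← nsmul_eq_mul, ← Finset.sum_const]
  refine le_trans (Finset.sum_le_sum (g := fun w => wt T a n x w * Q w ^ lam)
    fun w hw => ?_) ?_
  · rw [Finset.mem_filter] at hw
    obtain ⟨-, hw1, hw2, hw3⟩ := hw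
    have h2 : exp (- (lam * D)) ≤ wt T a n x w := by
      rw [ha, wt_alive T alive dd lam n x w hw1]
      refine Real.exp_le_exp.2 ?_
      have := mul_le_mul_of_nonneg_left hw2 hlam.le
      linarith
    exact mul_le_mul h2 (Real.rpow_le_rpow hθ0.le hw3 hlam.le)
      (Real.rpow_nonneg hθ0.le _) (wt_nonneg T ha0 n x w)
  · refine Finset.sum_le_sum_of_subset_of_nonneg (Finset.subset_univ _) fun w _ _ => ?_
    exact mul_nonneg (wt_nonneg T ha0 n x w)
      (Real.rpow_nonneg (PW_nonneg _ _ _ ha0 _ _ _) _)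

end lea

variable {ι : Type} [Fintype ι] [DecidableEq ι]

open Classical in
theorem light {W X : Type} [Fintype W] [Nonempty W] (T : X → W → X)
    (lab : X → W → ι → ℤ) (alive : X → Prop) (dd : X → ℝ) {lam : ℝ} (hlam : 0 ≤ lam) (n : ℕ)
    (x : X) {θ : ℝ} (hθ : 0 ≤ θ) (D : ℝ) (z : Fin n → ι → ℤ) (K : ℕ) :
    ((Finset.univ.filter fun w : Fin n → W => alv T alive n x w ∧ dcr T dd n x w ≤ D ∧
      PW T lab (wa alive dd lam) n x (pth T lab n x w) < θ ∧
      ∀ j i, |pth T lab n x w j i - z j i| ≤ K).card : ℝ) ≤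
      ((2 * K + 1) ^ Fintype.card ι) ^ n * ((Fintype.card W : ℝ) ^ n * θ * exp (lam * D)) := by
  set Q : Finset (Fin n → ι → ℤ) := Fintype.piFinset (fun j => Fintype.piFinset fun i =>
    Finset.Icc (z j i - K) (z j i + K)) with hQ
  have hQc : (Q.card : ℝ) = ((2 * K + 1) ^ Fintype.card ι) ^ n := by
    rw [hQ, Fintype.card_piFinset]
    push_cast
    have : ∀ j, (((Fintype.piFinset fun i =>
        Finset.Icc (z j i - K) (z j i + K)).card : ℕ) : ℝ) = (2 * K + 1) ^ Fintype.card ι :=
      fun j => card_box (z j) K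
    rw [Finset.prod_congr rfl fun j _ => this j]
    simp
  set a : X → ℝ := wa alive dd lam with ha
  have ha0 : ∀ x, 0 ≤ a x := wa_nonneg _ _ _
  have hN : (0:ℝ) < Fintype.card W := by exact_mod_cast Fintype.card_pos
  set S : Finset (Fin n → W) := Finset.univ.filter fun w : Fin n → W => alv T alive n x w ∧
      dcr T dd n x w ≤ D ∧ PW T lab a n x (pth T lab n x w) < θ ∧
      ∀ j i, |pth T lab n x w j i - z j i| ≤ K with hS
  have h1 : (S.card : ℝ) * exp (- (lam * D)) ≤
      ((2 * K + 1) ^ Fintype.card ι) ^ n * ((Fintype.card W : ℝ) ^ n * θ) := by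
    calc (S.card : ℝ) * exp (- (lam * D)) = ∑ _w ∈ S, exp (- (lam * D)) := by
          rw [Finset.sum_const, nsmul_eq_mul]
      _ ≤ ∑ w ∈ S, wt T a n x w := by
          refine Finset.sum_le_sum fun w hw => ?_
          rw [hS, Finset.mem_filter] at hw
          rw [ha, wt_alive T alive dd lam n x w hw.2.1]
          refine Real.exp_le_exp.2 ?_
          have := mul_le_mul_of_nonneg_left hw.2.2.1 hlam
          linarith
      _ = ∑ p ∈ S.image (pth T lab n x), ∑ w ∈ S.filter (fun w => pth T lab n x w = p),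
            wt T a n x w := by
          rw [Finset.sum_fiberwise_of_maps_to fun w hw => Finset.mem_image_of_mem _ hw]
      _ ≤ ∑ p ∈ S.image (pth T lab n x), (Fintype.card W : ℝ) ^ n * θ := by
          refine Finset.sum_le_sum fun p hp => ?_
          obtain ⟨w, hw, rfl⟩ := Finset.mem_image.1 hp
          rw [hS, Finset.mem_filter] at hw
          refine le_trans ?_ (mul_le_mul_of_nonneg_left hw.2.2.2.1.le (by positivity))
          rw [← fib]
          refine Finset.sum_le_sum_of_subset_of_nonneg ?_ fun w _ _ => wt_nonneg T ha0 n x w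
          intro v hv
          rw [Finset.mem_filter] at hv
          exact Finset.mem_filter.2 ⟨Finset.mem_univ v, hv.2⟩
      _ = (S.image (pth T lab n x)).card * ((Fintype.card W : ℝ) ^ n * θ) := by
          rw [Finset.sum_const, nsmul_eq_mul]
      _ ≤ (Q.card : ℝ) * ((Fintype.card W : ℝ) ^ n * θ) := by
          refine mul_le_mul_of_nonneg_right ?_ (by positivity)
          have : S.image (pth T lab n x) ⊆ Q := by
            intro p hp
            obtain ⟨w, hw, rfl⟩ := Finset.mem_image.1 hp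
            rw [hS, Finset.mem_filter] at hw
            rw [hQ, Fintype.mem_piFinset]
            intro j
            rw [Fintype.mem_piFinset]
            intro i
            rw [Finset.mem_Icc]
            have := abs_le.1 (hw.2.2.2.2 j i)
            constructor <;> linarith [this.1, this.2]
          exact_mod_cast Finset.card_le_card this
      _ = _ := by rw [hQc]
  have h2 : exp (- (lam * D)) * exp (lam * D) = 1 := by
    rw [← Real.exp_add]; simp
  calc (S.card : ℝ) = (S.card : ℝ) * exp (- (lam * D)) * exp (lam * D) := by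
        rw [mul_assoc, h2, mul_one]
    _ ≤ ((2 * K + 1) ^ Fintype.card ι) ^ n * ((Fintype.card W : ℝ) ^ n * θ) * exp (lam * D) :=
        mul_le_mul_of_nonneg_right h1 (Real.exp_pos _).le
    _ = _ := by ring

/-- the cell of a point -/
theorem cl_of_mem {β : ℕ} {x : St ι} {u : ι → ℝ} (hu : u ∈ cell β x) : cl β x.1 u = x := by
  unfold cl
  refine Prod.ext rfl ?_
  funext i
  have h := hu i
  simp only at h ⊢
  have h0 : 0 ≤ (β:ℝ) ^ x.1 * u i := by
    have : (0:ℝ) ≤ x.2 i := Nat.cast_nonneg _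
    linarith [h.1]
  rw [Nat.floor_eq_iff h0]
  constructor <;> linarith [h.1, h.2]

theorem dcr_eq {β : ℕ} (hβ : 0 < β) (dd : St ι → ℝ) (u : ι → ℝ) (n : ℕ) :
    ∀ (x : St ι) (w : Fin n → ι → Fin β), u ∈ cell β (stn β n x w) →
      dcr (chd β) dd n x w = ∑ i ∈ range n, dd (cl β (x.1 + i) u) := by
  induction n with
  | zero => intro x w _; simp [dcr]
  | succ n ih =>
    intro x w hu
    simp only [dcr]
    rw [ih (chd β x (w 0)) (fun j => w j.succ) hu, Finset.sum_range_succ', add_comm]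
    have h1 : cl β (x.1 + 0) u = x := cl_of_mem (cell_stn hβ (n + 1) x w hu)
    rw [h1]
    congr 1
    refine Finset.sum_congr rfl fun i _ => ?_
    have : (chd β x (w 0)).1 + i = x.1 + (i + 1) := by simp only [chd]; omega
    rw [this]

theorem t_FRO : S_FRO := by
  classical
  intro ι _ _ β hβ X hX h R K hK σ σ' ε hσ0 hσ hε hh dd hdd Y hYc hY n0 hal hav
  have hβ' : 0 < β := by omega
  have hβ0 : (0:ℝ) < β := by exact_mod_cast hβ'
  have hβ1 : (1:ℝ) < β := by exact_mod_cast (by omega : 1 < β)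
  have : Nonempty (ι → Fin β) := ⟨fun _ => ⟨0, hβ'⟩⟩
  obtain ⟨x0, hx0, hx1⟩ := exists_cell hβ' hYc hY n0
  obtain ⟨lam, hlam, hlam1, hheavy⟩ := heavy (W := ι → Fin β) (Λ := ι → ℤ) (X := St ι)
  set T := chd β (ι := ι) with hT
  set lab := clab β X with hlab
  set alive : St ι → Prop := fun x => h - dd x ≤ HH (clab β X) x with halive
  set PWW : (n : ℕ) → (Fin n → ι → ℤ) → ℝ := fun n p => PW T lab (wa alive dd lam) n x0 p
    with hPWW
  set θ : ℕ → ℝ := fun n => exp (- ((h - 2 - 2 * ε) * n)) with hθ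
  set Bad : ℕ → Set (ι → ℝ) := fun n => {u | u ∈ Y ∩ cell β x0 ∧ ∃ w : Fin n → ι → Fin β,
    u ∈ cell β (stn β n x0 w) ∧ alv T alive n x0 w ∧ dcr T dd n x0 w ≤ 2 * ε * n ∧
      θ n ≤ PWW n (pth T lab n x0 w)} with hBad
  have hBadvol : ∀ n, volume (Bad n) ≤ ENNReal.ofReal (exp (- (lam * n))) := by
    intro n
    have h1 := hheavy h T lab dd alive hdd (fun x hx => hx) n x0 (2 * ε * n) (θ n)
      (Real.exp_pos _)
    refine vol_words hβ' x0 (Finset.univ.filter fun w : Fin n → ι → Fin β =>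
      alv T alive n x0 w ∧ dcr T dd n x0 w ≤ 2 * ε * n ∧ θ n ≤ PWW n (pth T lab n x0 w)) ?_
      (Real.exp_pos _).le ?_
    · rintro u ⟨-, w, hw1, hw2, hw3⟩
      exact ⟨w, Finset.mem_filter.2 ⟨Finset.mem_univ _, hw2, hw3⟩, hw1⟩
    · have h2 : 0 < exp (- (lam * (2 * ε * n))) * θ n ^ lam := by
        have : 0 < θ n := Real.exp_pos _
        positivity
      rw [← le_div_iff₀ h2] at h1
      refine h1.trans ?_
      rw [mul_div_assoc]
      refine mul_le_mul_of_nonneg_left ?_ (by positivity)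
      rw [hθ]
      simp only
      rw [← Real.exp_mul, ← Real.exp_add, ← Real.exp_nat_mul, ← Real.exp_sub]
      refine Real.exp_le_exp.2 (le_of_eq ?_)
      ring
  have hsum : ∑' n, volume (Bad n) ≠ ⊤ := by
    refine ne_top_of_le_ne_top ?_ (ENNReal.tsum_le_tsum hBadvol)
    have hs : Summable fun n : ℕ => exp (- (lam * n)) := by
      have h1 : (fun n : ℕ => exp (- (lam * n))) = fun n : ℕ => (exp (-lam)) ^ n := by
        funext n
        rw [← Real.exp_nat_mul]
        congr 1
        ring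
      rw [h1]
      exact summable_geometric_of_lt_one (Real.exp_pos _).le (by rw [Real.exp_lt_one_iff]; linarith)
    exact hs.tsum_ofReal_ne_top
  have hae := ae_eventually_notMem hsum
  -- a set on which the estimate is uniform
  obtain ⟨k, hk⟩ : ∃ k : ℕ, volume {u | u ∈ Y ∩ cell β x0 ∧ ∀ n, k ≤ n → u ∉ Bad n} ≠ 0 := by
    by_contra hcon
    simp only [not_exists, not_not] at hcon
    apply hx1
    have h1 : Y ∩ cell β x0 ⊆ (⋃ k : ℕ, {u | u ∈ Y ∩ cell β x0 ∧ ∀ n, k ≤ n → u ∉ Bad n}) ∪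
        {u | ¬ ∀ᶠ n in Filter.atTop, u ∉ Bad n} := by
      intro u hu
      by_cases hh : ∀ᶠ n in Filter.atTop, u ∉ Bad n
      · obtain ⟨k, hk⟩ := Filter.eventually_atTop.1 hh
        exact Or.inl (Set.mem_iUnion.2 ⟨k, hu, hk⟩)
      · exact Or.inr hh
    refine measure_mono_null h1 (measure_union_null ?_ hae)
    rw [measure_iUnion_null_iff]
    exact hcon
  set Y2 := {u | u ∈ Y ∩ cell β x0 ∧ ∀ n, k ≤ n → u ∉ Bad n} with hY2
  have hY2Y : Y2 ⊆ Y := fun u hu => hu.1.1
  have key : ∀ n : ℕ, n0 + (k + n0) ≤ n → ∀ y : ι → ℝ,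
      volume {u | u ∈ Y2 ∧ ‖X u - y‖ ≤ ((β:ℝ) ^ n)⁻¹} ≤
      ENNReal.ofReal (((β:ℝ) ^ n0) ^ σ' * (((β:ℝ) ^ n)⁻¹) ^ σ') := by
    intro n hn y
    obtain ⟨p, rfl⟩ : ∃ p, n = n0 + p := ⟨n - n0, by omega⟩
    have hpk : k ≤ p := by omega
    have hpn : n0 ≤ p := by omega
    have hcount := light T lab alive dd hlam.le p x0 (Real.exp_pos (- ((h - 2 - 2 * ε) * p))).le
      (2 * ε * p) (fun j => fl ((β:ℝ) ^ (x0.1 + j + 1) • y)) K
    have hM : ((2 * (K:ℝ) + 1) ^ Fintype.card ι) ^ p * (θ p * exp (lam * (2 * ε * p))) ≤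
        ((β:ℝ) ^ n0) ^ σ' * (((β:ℝ) ^ (n0 + p))⁻¹) ^ σ' := by
      have h1 : ((β:ℝ) ^ n0) ^ σ' * (((β:ℝ) ^ (n0 + p))⁻¹) ^ σ' = exp (- (σ' * log β) * p) := by
        rw [← Real.mul_rpow (by positivity) (by positivity)]
        have h2 : (β:ℝ) ^ n0 * ((β:ℝ) ^ (n0 + p))⁻¹ = ((β:ℝ) ^ p)⁻¹ := by
          rw [pow_add]
          field_simp
        rw [h2, Real.rpow_def_of_pos (by positivity), Real.log_inv, Real.log_pow]
        congr 1
        ring
      have h3 : ((2 * (K:ℝ) + 1) ^ Fintype.card ι) ^ p = exp (Fintype.card ι * log (2 * K + 1) *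
          p) := by
        rw [show (Fintype.card ι : ℝ) * log (2 * K + 1) * p =
          p * log ((2 * K + 1) ^ Fintype.card ι) by rw [Real.log_pow]; ring, Real.exp_nat_mul,
          Real.exp_log (by positivity)]
      rw [h1, h3, hθ]
      simp only
      rw [← Real.exp_add, ← Real.exp_add]
      refine Real.exp_le_exp.2 ?_
      have hp0 : (0:ℝ) ≤ p := Nat.cast_nonneg p
      have h4 : lam * (2 * ε * p) ≤ 1 * (2 * ε * p) :=
        mul_le_mul_of_nonneg_right hlam1 (by positivity)
      nlinarith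
    refine le_trans ?_ (ENNReal.ofReal_le_ofReal hM)
    refine vol_words hβ' x0 (Finset.univ.filter fun w : Fin p → ι → Fin β =>
      alv T alive p x0 w ∧ dcr T dd p x0 w ≤ 2 * ε * p ∧
      PW T lab (wa alive dd lam) p x0 (pth T lab p x0 w) < exp (- ((h - 2 - 2 * ε) * p)) ∧
      ∀ j i, |pth T lab p x0 w j i - fl ((β:ℝ) ^ (x0.1 + j + 1) • y) i| ≤ K) ?_
      (by have : 0 < θ p := Real.exp_pos _
          positivity) (by
        refine hcount.trans (le_of_eq ?_)
        rw [hθ]
        ring)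
    rintro u ⟨⟨⟨huY, hux⟩, hub⟩, huy⟩
    obtain ⟨w, hw⟩ := exists_stn hβ' p x0 hux
    have halv : alv T alive p x0 w :=
      alv_of hβ' (fun x hx hu => (hal u huY x hx hu).1) p x0 w hx0.ge hw
    have hdcr : dcr T dd p x0 w ≤ 2 * ε * p := by
      rw [hT, dcr_eq hβ' dd u p x0 w hw, hx0]
      have h1 := hav u huY (n0 + p) (by omega)
      rw [Finset.sum_range_add] at h1
      have h2 : 0 ≤ ∑ i ∈ range n0, dd (cl β i u) := Finset.sum_nonneg fun i _ => hdd _
      have h3 : (n0 : ℝ) ≤ p := by exact_mod_cast hpn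
      push_cast at h1
      nlinarith
    refine ⟨w, Finset.mem_filter.2 ⟨Finset.mem_univ _, halv, hdcr, ?_, ?_⟩, hw⟩
    · by_contra hc
      rw [not_lt] at hc
      exact hub p hpk ⟨⟨huY, hux⟩, w, hw, halv, hdcr, hc⟩
    · exact pth_near hβ hK (fun x hx hu => (hal u huY x hx hu).2 u hu) p x0 w hx0.ge hw y
        (by rw [hx0]; exact huy)
  have h1 := mass_pos hβ hk hX (hY2Y.trans hYc) hσ0 hσ (by positivity) key
  intro h0
  apply h1
  exact measure_mono_null (Set.image_mono hY2Y) h0

end Pool.Agent.V7H30.HF
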