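import Pool.Agent.V7H68.HF.Spec2

/-!
Images of sets of positive outer measure at almost all heights: the version with frequencies.
-/

set_option autoImplicit false

namespace Pool.Agent.V7H30.HF

open Finset Real MeasureTheory Filter
open Pool.Agent.V7H68 Pool.Agent.V7H68.SS Pool.Agent.V7H68.MS Pool.Agent.V7H68.UF
open Pool.Agent.V7H68.HZ Pool.Agent.V7H68.HF
open scoped ENNReal

set_option linter.unusedSectionVars false

variable {ι : Type} [Fintype ι] [DecidableEq ι] {b : ℕ}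

/-- the constant of BN -/
noncomputable def bnc (ι : Type) [Fintype ι] (R : ℝ) : ℝ :=
  (Nat.factorial (Fintype.card ι + 1) : ℝ) * (((Fintype.card ι + 1 : ℕ) : ℝ) *
    ((2 * R + 3) ^ (Fintype.card ι + 1) * 4))

theorem PS_nonneg (g : (ι → ℝ) → ι → ℝ) (M : (ι → ℝ) →L[ℝ] (ι → ℝ)) (A : ℕ)
    (Λ : Set ℕ) (l0 L : ℕ) (r t : ℝ) (x : St ι) : 0 ≤ PS b g M A Λ l0 L r t x := by
  classical
  unfold PS
  refine Finset.sum_nonneg fun l _ => ?_
  split_ifs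
  · exact Nat.cast_nonneg _
  · exact le_rfl

theorem PS_le_sum (g : (ι → ℝ) → ι → ℝ) (M : (ι → ℝ) →L[ℝ] (ι → ℝ)) (A : ℕ)
    (Λ : Set ℕ) (l0 L : ℕ) (r t : ℝ) (x : St ι) :
    PS b g M A Λ l0 L r t x ≤ ∑ l ∈ Finset.Icc l0 L, (l:ℝ) := by
  classical
  unfold PS
  refine Finset.sum_le_sum fun l _ => ?_
  split_ifs
  · exact le_rfl
  · exact Nat.cast_nonneg _

theorem PS_cmp (hBN : S_BN) (hb : 2 ≤ b) {R RM : ℝ} {g : (ι → ℝ) → ι → ℝ} (hg : Bz b R g)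
    {M M' : (ι → ℝ) →L[ℝ] (ι → ℝ)} (hM : ‖M‖ ≤ RM) (d : ℕ) (Λ : Set ℕ) {l0 L : ℕ}
    (hMM : ‖M - M'‖ ≤ ((b:ℝ) ^ (Cd (Fintype.card ι) d * L))⁻¹)
    (hl0 : bnc ι (R + RM) ≤ (b:ℝ) ^ l0) {r t : ℝ} (hr : 1 ≤ r) (ht : |t| ≤ 1) {x : St ι}
    (hx : ∀ i, x.2 i < b ^ x.1) :
    PS b g M (Ad (Fintype.card ι) d) Λ l0 L r t x ≤
      PS b g M' (Ad (Fintype.card ι) d) Λ l0 L (2 * r) t x := by
  classical
  have hbp : 0 < b := by omega
  have hb0 : (0:ℝ) < b := by exact_mod_cast hbp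
  have hb1 : (1:ℝ) ≤ b := by exact_mod_cast (by omega : 1 ≤ b)
  unfold PS
  refine Finset.sum_le_sum fun l hl => ?_
  rw [Finset.mem_Icc] at hl
  by_cases h : l ∈ Λ ∧ t ∈ bdr b (fM (zm (b ^ x.1) x.2 g) M)
      (r * ((b:ℝ) ^ (Ad (Fintype.card ι) d * l))⁻¹) l
  · have h2 : t ∈ bdr b (fM (zm (b ^ x.1) x.2 g) M')
        (2 * r * ((b:ℝ) ^ (Ad (Fintype.card ι) d * l))⁻¹) l := by
      have h3 := hBN ι b hb (R + RM) (fM (zm (b ^ x.1) x.2 g) M) (fM (zm (b ^ x.1) x.2 g) M')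
        ((hg.zoom hbp hx).fM hbp hM) (Ad (Fintype.card ι) d) l t
        (r * ((b:ℝ) ^ (Ad (Fintype.card ι) d * l))⁻¹) ht
        (le_mul_of_one_le_left (by positivity) hr) (fun y hy => by
          rw [fM_mem _ _ hy, fM_mem _ _ hy, add_sub_add_left_eq_sub, 
            ← ContinuousLinearMap.sub_apply]
          have h4 := (M - M').le_opNorm y
          have h5 := norm_le_of_cube hy
          have h6 : ‖M - M'‖ * ‖y‖ ≤ ‖M - M'‖ * 1 :=
            mul_le_mul_of_nonneg_left h5 (norm_nonneg _)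
          have h7 : ((b:ℝ) ^ (Cd (Fintype.card ι) d * L))⁻¹ ≤
              ((b:ℝ) ^ (((Ad (Fintype.card ι) d + 1) * (Fintype.card ι + 1) + 2) * l))⁻¹ := by
            refine inv_anti₀ (by positivity) (pow_le_pow_right₀ hb1 ?_)
            exact Nat.mul_le_mul_left _ hl.2
          have h8 : 0 < ((b:ℝ) ^ (((Ad (Fintype.card ι) d + 1) * (Fintype.card ι + 1) + 2) *
            l))⁻¹ := by positivity
          linarith)
        (hl0.trans (pow_le_pow_right₀ hb1 hl.1)) h.2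
      rwa [← mul_assoc] at h3
    rw [if_pos h, if_pos ⟨h.1, h2⟩]
  · rw [if_neg h]
    split_ifs
    · exact Nat.cast_nonneg _
    · exact le_rfl

open Classical in
theorem Pn_le (hb : 0 < b) (g : (ι → ℝ) → ι → ℝ) (M : (ι → ℝ) →L[ℝ] (ι → ℝ)) (A : ℕ)
    (Λ : Set ℕ) (l0 q : ℕ) (t : ℝ) {c : ℝ} (hc : 0 ≤ c) (S : ((ι → ℝ) → ι → ℝ) → ℕ → ℝ)
    (hS : ∀ Z l, S Z l = if l ∈ Λ ∧ l0 ≤ l ∧ t ∈ bdn b Z A l then c * l else 0)
    (k : ℕ) (z : ι → ℕ) :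
    Pn b S q (fM (zm (b ^ k) z g) M) ≤ c * ∑ j ∈ range q, av (fun w : ι → Fin (b ^ j) =>
      PS b g M A Λ l0 q 1 t (sub b j (k, z) w)) := by
  unfold Pn
  rw [Finset.mul_sum]
  refine Finset.sum_le_sum fun j _ => ?_
  rw [← av_mul]
  refine av_mono fun w => ?_
  have hzoom : zm (b ^ j) (dv w) (fM (zm (b ^ k) z g) M) =
      fM (zm (b ^ (k + j)) (fun i => b ^ j * z i + dv w i) g) M := by
    rw [zm_fM (pow_pos hb j) (dv_lt w), zm_zm (by positivity) (by positivity) z (dv w)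
        (dv_lt w), ← pow_add]
  rw [hzoom]
  unfold PS
  rw [Finset.mul_sum]
  have h1 : ∑ l ∈ range (q - j + 1), S (fM (zm (b ^ (k + j)) (fun i => b ^ j * z i + dv w i) g) M)
      l ≤ ∑ l ∈ (range (q - j + 1)).filter (fun l => l0 ≤ l), c * (if l ∈ Λ ∧
    t ∈ bdr b (fM (zm (b ^ (sub b j (k, z) w).1) (sub b j (k, z) w).2 g) M)
      (1 * ((b:ℝ) ^ (A * l))⁻¹) l then (l:ℝ) else 0) := by
    rw [Finset.sum_filter]
    refine Finset.sum_le_sum fun l _ => ?_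
    rw [hS, one_mul]
    by_cases hl : l0 ≤ l
    · rw [if_pos hl]
      by_cases h2 : l ∈ Λ ∧ t ∈ bdn b (fM (zm (b ^ (k + j)) (fun i => b ^ j * z i + dv w i) g) M)
          A l
      · rw [if_pos ⟨h2.1, hl, h2.2⟩, if_pos ⟨h2.1, h2.2⟩]
      · rw [if_neg (fun h => h2 ⟨h.1, h.2.2⟩), if_neg (fun h => h2 ⟨h.1, h.2⟩), mul_zero]
    · rw [if_neg hl, if_neg (fun h => hl h.2.1)]
  refine h1.trans (Finset.sum_le_sum_of_subset_of_nonneg ?_ fun l _ _ => ?_)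
  · intro l hl
    rw [Finset.mem_filter, Finset.mem_range] at hl
    rw [Finset.mem_Icc]
    omega
  · refine mul_nonneg hc ?_
    split_ifs
    · exact Nat.cast_nonneg _
    · exact le_rfl

theorem sum_blocks (f : ℕ → ℝ) (q n : ℕ) :
    ∑ i ∈ range n, ∑ j ∈ range q, f (q * i + j) = ∑ k ∈ range (q * n), f k := by
  induction n with
  | zero => simp
  | succ n ih =>
    rw [Finset.sum_range_succ, ih, mul_add_one, Finset.sum_range_add]

theorem av_eq (j : ℕ) (f : (ι → Fin (b ^ j)) → ℝ) :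
    av f = (((b:ℝ) ^ j) ^ Fintype.card ι)⁻¹ * ∑ w, f w := by
  unfold av
  rw [← Finset.mul_sum, Fintype.card_pi]
  simp

theorem cl_lt {u : ι → ℝ} (hu : u ∈ cube ι) (hb : 0 < b) (k : ℕ) (i : ι) :
    (cl b k u).2 i < b ^ (cl b k u).1 := by
  have hb0 : (0:ℝ) < b := by exact_mod_cast hb
  unfold cl
  simp only
  rw [Nat.floor_lt (mul_nonneg (by positivity) (hu i).1)]
  push_cast
  have h1 : (0:ℝ) < (b:ℝ) ^ k := by positivity
  have h2 := mul_lt_mul_of_pos_left (hu i).2 h1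
  linarith

theorem sub_lt {j : ℕ} {x : St ι} (hx : ∀ i, x.2 i < b ^ x.1) (w : ι → Fin (b ^ j)) (i : ι) :
    (sub b j x w).2 i < b ^ (sub b j x w).1 :=
  low_lt hx (dv_lt w) i

end Pool.Agent.V7H30.HF
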