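import Pool.Agent.V7H30.HF.IMG
import Pool.Agent.V7H30.HF.FRO

/-!
Images of sets of positive outer measure at almost all heights: the version with frequencies.
-/

set_option autoImplicit false

namespace Pool.Agent.V7H30.HF

open Finset Real MeasureTheory Filter
open Pool.Agent.V7H68 Pool.Agent.V7H68.SS Pool.Agent.V7H68.MS Pool.Agent.V7H68.UF
open Pool.Agent.V7H68.HZ Pool.Agent.V7H68.HF
open scoped ENNReal

set_option linter.unusedSectionVars false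

theorem t_IMG (hONE : S_ONE) (hRCM : S_RCM) (hFREQ : S_FREQ) (hFRO : S_FRO) (hLLN : S_LLN)
    (hBN : S_BN) : S_IMG := by
  classical
  intro ι _ _ _ b hb R h hh g hg d hlow F hF
  have : NeZero b := ⟨by omega⟩
  have hbp : 0 < b := by omega
  have hb0 : (0:ℝ) < b := by exact_mod_cast hbp
  have hb1 : (1:ℝ) < b := by exact_mod_cast (by omega : 1 < b)
  have hlb : 0 < log b := Real.log_pos hb1
  have hR0 : 0 ≤ R := hg.R0
  obtain ⟨Λ, hΛ⟩ : ∃ Λ : Set ℕ, Λ = {l | FrqAt b d (Cd (Fintype.card ι) d) l g} := ⟨_, rfl⟩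
  have hfr := hFREQ ι b hb R g hg d Λ (fun l hl => by rw [hΛ] at hl; exact hl) (fderiv ℝ F)
    (measurable_fderiv ℝ F)
  filter_upwards [hfr] with t ht
  intro ht1 σ hσ0 hσ Y hYc hY
  set A : ℕ := Ad (Fintype.card ι) d with hA
  set X : (ι → ℝ) → ι → ℝ := fun u => g u + F u + t • u with hX
  have hXm : AEMeasurable X (volume.restrict (cube ι)) :=
    (hg.meas.aemeasurable.add (aemeasurable_of_diff hF)).add
      (measurable_id.const_smul t).aemeasurable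
  set m : ℝ := (Fintype.card ι : ℝ) with hm
  have hm1 : 1 ≤ m := by
    rw [hm]
    exact_mod_cast Fintype.card_pos
  set K0 : ℝ := m * log b with hK0
  set hE : ℝ := h * log b with hhE
  have hE0 : 0 ≤ hE := by positivity
  set σ' : ℝ := (σ + (m - h)) / 2 with hσ'
  have hσσ' : σ < σ' := by rw [hσ']; linarith
  have hσ'm : σ' < m - h := by rw [hσ']; linarith
  set η : ℝ := (m - h - σ') * log b / 2 with hη
  have hη0 : 0 < η := by
    have h1 : 0 < m - h - σ' := by linarith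
    rw [hη]
    positivity
  obtain ⟨W, hW⟩ : ∃ W : ℝ, W = Wc b (Fintype.card ι) A := ⟨_, rfl⟩
  have hW0 : 0 < W := by
    rw [hW]
    unfold Wc
    rw [← hm]
    positivity
  obtain ⟨ε1, hε1⟩ : ∃ ε1 : ℝ, ε1 = η / (16 * W) := ⟨_, rfl⟩
  have hε10 : 0 < ε1 := by rw [hε1]; positivity
  have hWε : W * ε1 = η / 16 := by rw [hε1]; field_simp
  obtain ⟨Dn, hDn⟩ : ∃ Dn : ℕ → (ι → ℝ) →L[ℝ] (ι → ℝ), DenseRange Dn :=
    ⟨_, TopologicalSpace.denseRange_denseSeq _⟩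
  -- the constants
  set C1 : ℕ → ℝ := fun j => (2 * (R + j + 4)) ^ Fintype.card ι + m * log 9 with hC1
  set K : ℕ → ℕ := fun j => ⌈R + j + 4⌉₊ with hK
  set cst : ℕ → ℝ := fun j => C1 j + m * log (2 * K j + 1) + 2 with hcst
  set V : ℕ → ℕ → ℕ → ℕ → ℕ → Set (ι → ℝ) := fun j l0 q N1 r => {v | DifferentiableAt ℝ F v ∧
    ‖fderiv ℝ F v‖ ≤ j ∧ cst j ≤ η / 2 * q ∧ bnc ι (R + (j + 1)) ≤ (b:ℝ) ^ l0 ∧
    ‖fderiv ℝ F v - Dn r‖ ≤ ((b:ℝ) ^ (Cd (Fintype.card ι) d * q))⁻¹ ∧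
    (∀ (k : ℕ) (z : ι → ℕ), (∀ i, z i < b ^ k) →
      (K0 - hE - η) * q ≤ En b (ft (fM (zm (b ^ k) z g) (fderiv ℝ F v)) t) q +
        W * ∑ i ∈ range q, av (fun w : ι → Fin (b ^ i) =>
          PS b g (fderiv ℝ F v) A Λ l0 q 1 t (sub b i (k, z) w))) ∧
    ∀ N, N1 ≤ N → ∑ k ∈ range N, PS b g (fderiv ℝ F v) A Λ l0 q 4 t (cl b k v) ≤ ε1 * N} with hV
  have hcover : ∀ v, DifferentiableAt ℝ F v → (∀ ε : ℝ, 0 < ε → ∀ᶠ l0 : ℕ in atTop, ∀ L : ℕ,
      ∀ᶠ N : ℕ in atTop, ∑ k ∈ range N, PS b g (fderiv ℝ F v) A Λ l0 L 4 t (cl b k v) ≤ ε * N) →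
      ∃ j l0 q N1 r : ℕ, 1 ≤ q ∧ v ∈ V j l0 q N1 r := by
    intro v hv hal
    set M := fderiv ℝ F v with hM
    set j := ⌈‖M‖⌉₊ with hj
    have hMj : ‖M‖ ≤ j := Nat.le_ceil _
    obtain ⟨l1, hl1⟩ := eventually_atTop.1 (hal ε1 hε10)
    obtain ⟨l2, hl2⟩ := eventually_atTop.1
      ((tendsto_pow_atTop_atTop_of_one_lt hb1).eventually_ge_atTop (bnc ι (R + (j + 1))))
    obtain ⟨l0, hl01, hl02⟩ : ∃ l0, l1 ≤ l0 ∧ l2 ≤ l0 :=
      ⟨max l1 l2, le_max_left _ _, le_max_right _ _⟩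
    obtain ⟨S, hS⟩ : ∃ S : ((ι → ℝ) → ι → ℝ) → ℕ → ℝ, ∀ Z l, S Z l =
      if l ∈ Λ ∧ l0 ≤ l ∧ t ∈ bdn b Z A l then W * l else 0 := ⟨_, fun _ _ => rfl⟩
    obtain ⟨N0, hN0⟩ := hONE ι b hb (R + ‖M‖) t (Cz b g M) (Cz_zc hbp hg (le_refl ‖M‖))
      (by positivity) ht1 A hE hE0 S (fun Z l => by
        rw [hS]
        split_ifs
        · positivity
        · exact le_rfl) (by
        intro ε hε
        refine ((hlow (ε / log b) (by positivity)).and_eventually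
          (eventually_ge_atTop (max l0 1))).mono ?_
        rintro ℓ ⟨⟨h1, h2⟩, h3⟩
        refine ⟨?_, ?_⟩
        · intro Z _
          by_cases hbd : t ∈ bdn b Z A ℓ
          · right
            rw [hS, if_pos ⟨by rw [hΛ]; exact h1, (le_max_left _ _).trans h3, hbd⟩, hW]
          · exact Or.inl hbd
        · have h5 := hRCM ι b hb g ((Fintype.card ι + 1) * (A + 1) + 1) ℓ
            ((le_max_right _ _).trans h3) (h + ε / log b) (by
            have e1 : (Fintype.card ι + 1) * (A + 1) + 1 + 1 =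
              Cd (Fintype.card ι) d := by unfold Cd; rw [← hA]; ring
            rw [e1]
            exact h2) M
          have e2 : (h + ε / log b) * log b = hE + ε := by
            rw [hhE]
            field_simp
          rwa [e2] at h5) η hη0
    obtain ⟨q1, hq1⟩ := exists_nat_gt (cst j / (η / 2))
    rw [div_lt_iff₀ (by positivity)] at hq1
    obtain ⟨q, hq⟩ : ∃ q, q = N0 + q1 + 1 := ⟨_, rfl⟩
    obtain ⟨N1, hN1⟩ := eventually_atTop.1 (hl1 l0 hl01 q)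
    obtain ⟨r, hr⟩ := hDn.exists_dist_lt M
      (show 0 < ((b:ℝ) ^ (Cd (Fintype.card ι) d * q))⁻¹ by positivity)
    rw [dist_eq_norm] at hr
    refine ⟨j, l0, q, N1, r, by omega, hv, hMj, ?_, hl2 l0 hl02, hr.le, fun k z hz => ?_, hN1⟩
    · have e1 : (q1:ℝ) ≤ (q : ℝ) := by exact_mod_cast (by omega)
      have e2 := mul_le_mul_of_nonneg_left e1 (by positivity : 0 ≤ η / 2)
      linarith
    · have e1 := hN0 q (by omega) (fM (zm (b ^ k) z g) M) ⟨k, z, hz, rfl⟩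
      have e2 := Pn_le hbp g M A Λ l0 q t hW0.le S hS k z
      linarith
  -- a set on which everything is uniform
  set V' : ℕ → ℕ → ℕ → ℕ → ℕ → ℕ → Set (ι → ℝ) := fun j l0 q N1 r n0 => {v | v ∈ V j l0 q N1 r ∧
    ∀ x : St ι, n0 ≤ x.1 → v ∈ cell (b ^ q) x → ∀ u ∈ cell (b ^ q) x,
      ‖F u - F (corner (b ^ q) x) - fderiv ℝ F v (u - corner (b ^ q) x)‖ ≤
        ((((b ^ q : ℕ) : ℝ)) ^ (x.1 + 1))⁻¹} with hV'
  obtain ⟨j, l0, q, N1, r, n0, hq1, hYV⟩ : ∃ j l0 q N1 r n0 : ℕ, 1 ≤ q ∧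
      volume (Y ∩ V' j l0 q N1 r n0) ≠ 0 := by
    by_contra hcon
    simp only [not_exists, not_and, not_not] at hcon
    apply hY
    have hnull : volume {v | ¬ (v ∈ cube ι → DifferentiableAt ℝ F v ∧
        (|t| ≤ 1 → ∀ ε : ℝ, 0 < ε → ∀ᶠ l0 : ℕ in atTop, ∀ L : ℕ,
      ∀ᶠ N : ℕ in atTop, ∑ k ∈ range N, PS b g (fderiv ℝ F v) A Λ l0 L 4 t (cl b k v) ≤
        ε * N))} = 0 := by
      have h1 := (ae_restrict_iff' cube_meas).1 (hF.and ht)
      exact h1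
    have hsub : Y ⊆ (⋃ j : ℕ, ⋃ l0 : ℕ, ⋃ q : ℕ, ⋃ N1 : ℕ, ⋃ r : ℕ, ⋃ n0 : ℕ,
        Y ∩ V' j l0 (q + 1) N1 r n0) ∪
        {v | ¬ (v ∈ cube ι → DifferentiableAt ℝ F v ∧
        (|t| ≤ 1 → ∀ ε : ℝ, 0 < ε → ∀ᶠ l0 : ℕ in atTop, ∀ L : ℕ,
      ∀ᶠ N : ℕ in atTop, ∑ k ∈ range N, PS b g (fderiv ℝ F v) A Λ l0 L 4 t (cl b k v) ≤
        ε * N))} := by
      intro v hv
      by_cases hg : v ∈ cube ι → DifferentiableAt ℝ F v ∧
        (|t| ≤ 1 → ∀ ε : ℝ, 0 < ε → ∀ᶠ l0 : ℕ in atTop, ∀ L : ℕ,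
      ∀ᶠ N : ℕ in atTop, ∑ k ∈ range N, PS b g (fderiv ℝ F v) A Λ l0 L 4 t (cl b k v) ≤
        ε * N)
      · left
        obtain ⟨hg1, hg2⟩ := hg (hYc hv)
        obtain ⟨j, l0, q, N1, r, hq, hvV⟩ := hcover v hg1 (hg2 ht1)
        obtain ⟨p, rfl⟩ : ∃ p, q = p + 1 := ⟨q - 1, by omega⟩
        have hβ2 : 2 ≤ b ^ (p + 1) := le_trans hb (Nat.le_self_pow (by omega) b)
        obtain ⟨n0, hn0⟩ := cell_diff hg1 hβ2
        exact Set.mem_iUnion.2 ⟨j, Set.mem_iUnion.2 ⟨l0, Set.mem_iUnion.2 ⟨p,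
          Set.mem_iUnion.2 ⟨N1, Set.mem_iUnion.2 ⟨r, Set.mem_iUnion.2 ⟨n0, hv, hvV, hn0⟩⟩⟩⟩⟩⟩
      · right
        exact hg
    refine measure_mono_null hsub (measure_union_null ?_ hnull)
    simp only [measure_iUnion_null_iff]
    intro j l0 q N1 r n0
    exact hcon j l0 (q + 1) N1 r n0 (by omega)
  have hq0 : (0:ℝ) < q := by exact_mod_cast (by omega : 0 < q)
  -- the law of large numbers
  obtain ⟨B, hB⟩ : ∃ B : ℕ → (ι → ℕ) → ℝ, ∀ k z, B k z = PS b g (Dn r) A Λ l0 q 2 t (k, z) :=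
    ⟨_, fun _ _ => rfl⟩
  have hlln := hLLN ι b q hb hq1 B (∑ l ∈ Finset.Icc l0 q, (l:ℝ)) (fun k z => by
    rw [hB]
    exact ⟨PS_nonneg _ _ _ _ _ _ _ _ _, PS_le_sum _ _ _ _ _ _ _ _ _⟩)
  obtain ⟨ε2, hε2⟩ : ∃ ε2 : ℝ, ε2 = ε1 * q := ⟨_, rfl⟩
  have hε20 : 0 < ε2 := by rw [hε2]; positivity
  obtain ⟨N2, hYG⟩ : ∃ N2 : ℕ, volume (Y ∩ V' j l0 q N1 r n0 ∩ {u | ∀ N, N2 ≤ N →
      ∑ n ∈ range N, ∑ j ∈ range q, (((b:ℝ) ^ j) ^ Fintype.card ι)⁻¹ * ∑ w : ι → Fin (b ^ j),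
        B (q * n + j) (fun i => b ^ j * ⌊(b:ℝ) ^ (q * n) * u i⌋₊ + (w i : ℕ)) ≤
      ∑ n ∈ range N, ∑ j ∈ range q, B (q * n + j) (fun i => ⌊(b:ℝ) ^ (q * n + j) * u i⌋₊) +
        ε2 * N}) ≠ 0 := by
    by_contra hcon
    simp only [not_exists, not_not] at hcon
    apply hYV
    have hnull := (ae_restrict_iff' (cube_meas (ι := ι))).1 hlln
    have hnull2 := ae_iff.1 hnull
    refine measure_mono_null (t := (⋃ N2 : ℕ, Y ∩ V' j l0 q N1 r n0 ∩ {u | ∀ N, N2 ≤ N →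
      ∑ n ∈ range N, ∑ j ∈ range q, (((b:ℝ) ^ j) ^ Fintype.card ι)⁻¹ * ∑ w : ι → Fin (b ^ j),
        B (q * n + j) (fun i => b ^ j * ⌊(b:ℝ) ^ (q * n) * u i⌋₊ + (w i : ℕ)) ≤
      ∑ n ∈ range N, ∑ j ∈ range q, B (q * n + j) (fun i => ⌊(b:ℝ) ^ (q * n + j) * u i⌋₊) +
        ε2 * N}) ∪ _) ?_ (measure_union_null (measure_iUnion_null_iff.2 hcon) hnull2)
    intro u hu
    by_cases h2 : ∀ᶠ N : ℕ in atTop,
      ∑ n ∈ range N, ∑ j ∈ range q, (((b:ℝ) ^ j) ^ Fintype.card ι)⁻¹ * ∑ w : ι → Fin (b ^ j),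
        B (q * n + j) (fun i => b ^ j * ⌊(b:ℝ) ^ (q * n) * u i⌋₊ + (w i : ℕ)) ≤
      ∑ n ∈ range N, ∑ j ∈ range q, B (q * n + j) (fun i => ⌊(b:ℝ) ^ (q * n + j) * u i⌋₊) +
        ε2 * N
    · left
      obtain ⟨N2, hN2⟩ := eventually_atTop.1 h2
      exact Set.mem_iUnion.2 ⟨N2, hu, hN2⟩
    · right
      intro h3
      exact h2 (h3 (hYc hu.1) ε2 hε20)
  set Y2 := Y ∩ V' j l0 q N1 r n0 ∩ {u | ∀ N, N2 ≤ N →
      ∑ n ∈ range N, ∑ j ∈ range q, (((b:ℝ) ^ j) ^ Fintype.card ι)⁻¹ * ∑ w : ι → Fin (b ^ j),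
        B (q * n + j) (fun i => b ^ j * ⌊(b:ℝ) ^ (q * n) * u i⌋₊ + (w i : ℕ)) ≤
      ∑ n ∈ range N, ∑ j ∈ range q, B (q * n + j) (fun i => ⌊(b:ℝ) ^ (q * n + j) * u i⌋₊) +
        ε2 * N} with hY2
  set β : ℕ := b ^ q with hβ
  have hβ2 : 2 ≤ β := le_trans hb (Nat.le_self_pow (by omega) b)
  have : NeZero β := ⟨by omega⟩
  have hcj : cst j ≤ η / 2 * q := by
    obtain ⟨v, hv⟩ := nonempty_of_measure_ne_zero hYV
    exact hv.2.1.2.2.1
  have hlogβ : log (β:ℝ) = q * log b := by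
    rw [hβ]
    push_cast
    rw [Real.log_pow]
  obtain ⟨dd, hdd⟩ : ∃ dd : St ι → ℝ, ∀ x, dd x = W * ∑ i ∈ range q, av (fun w : ι → Fin (b ^ i) =>
      PS b g (Dn r) A Λ l0 q 2 t (sub b i (q * x.1, x.2) w)) := ⟨_, fun _ => rfl⟩
  have hpow : ∀ k, β ^ k = b ^ (q * k) := fun k => by rw [hβ, pow_mul]
  have h1 := hFRO ι β hβ2 X hXm ((K0 - hE - η) * q - C1 j) (R + j + 2) (K j) (by
      rw [hK]
      have := Nat.le_ceil (R + j + 4)
      linarith) σ σ' (η * q / 8) hσ0 hσσ' (by positivity) (by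
      rw [hlogβ, ← hm]
      have e1 : (K0 - hE - η) * q = σ' * (q * log b) + η * q := by
        have e2 : K0 - hE - η = σ' * log b + η := by
          rw [hK0, hhE, hη]
          ring
        rw [e2]
        ring
      rw [e1]
      rw [hcst] at hcj
      simp only at hcj
      linarith) dd (fun x => by
      rw [hdd]
      exact mul_nonneg hW0.le (Finset.sum_nonneg fun i _ => av_nonneg fun w =>
        PS_nonneg _ _ _ _ _ _ _ _ _)) Y2
      ((Set.inter_subset_left.trans Set.inter_subset_left).trans hYc) hYG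
      (max n0 (max N1 N2)) (by
      rintro u ⟨⟨huY, huV, hu2⟩, -⟩ x hx hux
      have hx0 : n0 ≤ x.1 := (le_max_left _ _).trans hx
      have hins : ∀ i, x.2 i < b ^ (q * x.1) := by
        intro i
        rw [pow_mul, ← hβ]
        exact cell_lt (by omega) (hYc huY) hux i
      have hF' := hu2 x hx0 hux
      obtain ⟨huV1, huV2, huV3, huV4, huV5, huV6, huV7⟩ := huV
      constructor
      · have e1 := huV6 (q * x.1) x.2 hins
        have e0 : W * ∑ i ∈ range q, av (fun w : ι → Fin (b ^ i) =>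
            PS b g (fderiv ℝ F u) A Λ l0 q 1 t (sub b i (q * x.1, x.2) w)) ≤ dd x := by
          rw [hdd]
          refine mul_le_mul_of_nonneg_left (Finset.sum_le_sum fun i _ => av_mono fun w => ?_)
            hW0.le
          have e4 := PS_cmp hBN hb hg (M := fderiv ℝ F u) (M' := Dn r) (RM := (j:ℝ) + 1)
            (huV2.trans (by linarith)) d Λ huV5 huV4 (le_refl (1:ℝ)) ht1
            (x := sub b i (q * x.1, x.2) w) (sub_lt (x := (q * x.1, x.2)) hins w)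
          rwa [mul_one] at e4
        have e2 := ent_label (hg.zoom hbp hins) hbp huV2 ht1 q
        have e3 := cell_ent (β := β) (by omega) (f := g) (F := F) (t := t)
          (M := fderiv ℝ F u) (x := x) hF'
        rw [hpow] at e3
        rw [hC1]
        simp only
        rw [hX]
        have e4 : log (Fintype.card (ι → Fin (b ^ q))) = log (Fintype.card (ι → Fin β)) := rfl
        rw [e4] at e2
        linarith
      · intro v hv
        refine cell_norm (by omega) (f := g) (F := F) ht1 (fun w => ?_)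
          ⟨fderiv ℝ F u, huV2, hF'⟩ hv
        rw [hpow]
        exact hg.bdd _ _ hins w) (by
      rintro u ⟨⟨huY, huV, -⟩, hu3⟩ n hn
      obtain ⟨huV1, huV2, huV3, huV4, huV5, huV6, huV7⟩ := huV
      have hn1 : N1 ≤ n := ((le_max_left _ _).trans (le_max_right _ _)).trans hn
      have hn2 : N2 ≤ n := ((le_max_right _ _).trans (le_max_right _ _)).trans hn
      have huc := hYc huY
      have e1 : ∑ i ∈ range n, dd (cl β i u) = W * ∑ n ∈ range n, ∑ j ∈ range q,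
          (((b:ℝ) ^ j) ^ Fintype.card ι)⁻¹ * ∑ w : ι → Fin (b ^ j),
          B (q * n + j) (fun i => b ^ j * ⌊(b:ℝ) ^ (q * n) * u i⌋₊ + (w i : ℕ)) := by
        rw [Finset.mul_sum]
        refine Finset.sum_congr rfl fun i _ => ?_
        rw [hdd]
        congr 1
        refine Finset.sum_congr rfl fun j _ => ?_
        rw [av_eq]
        congr 1
        refine Finset.sum_congr rfl fun w _ => ?_
        rw [hB]
        unfold cl sub
        simp only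
        have e2 : ((β:ℕ):ℝ) ^ i = (b:ℝ) ^ (q * i) := by
          rw [hβ]; push_cast; rw [← pow_mul]
        rw [e2]
      have e2 := hu3 n hn2
      rw [sum_blocks (fun k => B k (fun i => ⌊(b:ℝ) ^ k * u i⌋₊)) q n] at e2
      have e3 : ∑ k ∈ range (q * n), B k (fun i => ⌊(b:ℝ) ^ k * u i⌋₊) ≤
          ∑ k ∈ range (q * n), PS b g (fderiv ℝ F u) A Λ l0 q 4 t (cl b k u) := by
        refine Finset.sum_le_sum fun k _ => ?_
        rw [hB]
        have e4 := PS_cmp hBN hb hg (M := Dn r) (M' := fderiv ℝ F u) (RM := (j:ℝ) + 1) (by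
            have e5 : ((b:ℝ) ^ (Cd (Fintype.card ι) d * q))⁻¹ ≤ 1 :=
              inv_le_one_of_one_le₀ (one_le_pow₀ hb1.le)
            have e6 := norm_sub_norm_le (Dn r) (fderiv ℝ F u)
            rw [norm_sub_rev] at e6
            linarith) d Λ (by rw [norm_sub_rev]; exact huV5) huV4 (r := 2) (by norm_num) ht1
            (x := cl b k u) (cl_lt huc hbp k)
        have e5 : (2:ℝ) * 2 = 4 := by norm_num
        rw [e5] at e4
        exact e4
      have e4 := huV7 (q * n) (hn1.trans (Nat.le_mul_of_pos_left n (by omega)))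
      rw [e1]
      have e5 := mul_le_mul_of_nonneg_left (e2.trans (add_le_add (e3.trans e4) le_rfl)) hW0.le
      refine e5.trans (le_of_eq ?_)
      rw [hε2]
      push_cast
      have e6 : W * (ε1 * (q * n) + ε1 * q * n) = (W * ε1) * (2 * q * n) := by ring
      rw [e6, hWε]
      ring)
  intro h0
  apply h1
  exact measure_mono_null (Set.image_mono (Set.inter_subset_left.trans Set.inter_subset_left)) h0

end Pool.Agent.V7H30.HF
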